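import Pool.Agent.Work.MP_9a1701_nt.P.Final

open Filter MeasureTheory ProbabilityTheory Topology
open Pool.Agent.Work.MP_9a1701_nt.P

namespace Pool.Agent.Results.MP_9a1701_nt.CramerPoisson

theorem result {Ω : Type*} [MeasurableSpace Ω] (μ : Measure Ω) [IsProbabilityMeasure μ]
    (E : ℕ → Set Ω) (hm : ∀ n, MeasurableSet (E n)) (hind : iIndepSet E μ) (c : ℝ)
    (hc : Tendsto (fun n : ℕ => μ.real (E n) * Real.log n) atTop (nhds c)) :
    ∀ᵐ ω ∂μ, ∀ k : ℕ, Tendsto
      (fun x : ℕ => (((Finset.Icc 1 x).filter fun n => rep {t | ω ∈ E t} n = k).card : ℝ) / x)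
      atTop (nhds (Real.exp (-(c * Real.log 2)) * (c * Real.log 2) ^ k / k.factorial)) :=
  thmA μ E hm hind c hc

end Pool.Agent.Results.MP_9a1701_nt.CramerPoisson
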