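import Pool.Agent.Work.MP_9a1701_nt.V.W6

open Filter MeasureTheory ProbabilityTheory Topology
open Pool.Agent.Work.MP_9a1701_nt.P

namespace Pool.Agent.Results.MP_9a1701_nt.PerturbedPrimes

theorem result {Ω : Type*} [MeasurableSpace Ω] (μ : Measure Ω) [IsProbabilityMeasure μ]
    (E : ℕ → Set Ω) (hm : ∀ n, MeasurableSet (E n)) (hind : iIndepSet E μ) (n₁ : ℕ)
    (hanti : ∀ u w : ℕ, n₁ ≤ u → u ≤ w → μ.real (E w) ≤ μ.real (E u))
    (hmono : ∀ u w : ℕ, n₁ ≤ u → u ≤ w → u * μ.real (E u) ≤ w * μ.real (E w))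
    (hsmall : Tendsto (fun n : ℕ => μ.real (E n) * Real.log n) atTop (nhds 0))
    (κ v : ℝ) (hκ : 0 ≤ κ) (hv : 1 / 2 < v) (h1 : κ * v < 1 - v) (h2 : 4 * (κ * v) < 1)
    (hlarge : ∀ᶠ n : ℕ in atTop, (n : ℝ) ^ (-κ) ≤ μ.real (E n)) :
    ∀ᵐ ω ∂μ, ∀ (k : ℕ) (ε : ℝ), 0 < ε → ∀ᶠ x : ℕ in atTop,
      (((Finset.Icc 1 x).filter fun n => rep {t | t.Prime ∨ ω ∈ E t} n = k).card : ℝ) / x ∈
        Set.Icc
          ((1 + Real.log v) *
            (Real.exp (-Real.log (2 * v)) * Real.log (2 * v) ^ k / k.factorial) - ε)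
          (Real.exp (-Real.log (2 * v)) * Real.log (2 * v) ^ k / k.factorial - Real.log v + ε) :=
  thmW μ E hm hind ⟨fun _ => ⟨measureReal_nonneg, measureReal_le_one⟩, hanti, hmono, hsmall⟩
    hκ hv h1 h2 hlarge

end Pool.Agent.Results.MP_9a1701_nt.PerturbedPrimes
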