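import Pool.Agent.Work.MP_9a1701_nt.Main

open Filter

namespace Pool.Agent.Results.MP_9a1701_nt.RepresentableCount

/-- `f n` is the number of pairs `i ≤ j` with `n = p_i + ... + p_j` (primes indexed from `0`). -/
noncomputable def f (n : ℕ) : ℕ :=
  Set.ncard {ij : ℕ × ℕ | ij.1 ≤ ij.2 ∧ n = ∑ t ∈ Finset.Icc ij.1 ij.2, Nat.nth Nat.Prime t}

theorem result : ∀ᶠ x : ℕ in atTop,
    1 / 125000 * (x * Real.log (Real.log x) / Real.log x) ≤
      (((Finset.Icc 1 x).filter (fun n => 1 ≤ f n)).card : ℝ) := by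
  classical
  filter_upwards [Pool.Agent.Work.MP_9a1701_nt.main] with x hx
  refine hx.trans (Nat.cast_le.2 (Finset.card_le_card fun n hn => ?_))
  obtain ⟨h1, k, i, hk, h2⟩ := Finset.mem_filter.1 hn
  refine Finset.mem_filter.2 ⟨h1, ?_⟩
  have hfin : Set.Finite {ij : ℕ × ℕ | ij.1 ≤ ij.2 ∧
      n = ∑ t ∈ Finset.Icc ij.1 ij.2, Nat.nth Nat.Prime t} := by
    refine ((Set.finite_le_nat n).prod (Set.finite_le_nat n)).subset ?_
    rintro ⟨a, b⟩ ⟨e1, e2⟩
    have e3 : Nat.nth Nat.Prime b ≤ n := by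
      rw [e2]
      exact Finset.single_le_sum (f := fun t => Nat.nth Nat.Prime t) (fun _ _ => Nat.zero_le _)
        (Finset.mem_Icc.2 ⟨e1, le_rfl⟩)
    have e4 : b ≤ Nat.nth Nat.Prime b := Pool.Agent.Work.MP_9a1701_nt.le_pr b
    exact ⟨le_trans e1 (e4.trans e3), e4.trans e3⟩
  refine (Set.ncard_pos hfin).2 ⟨(i, i + k - 1), by simp only; omega, ?_⟩
  have e : Finset.Icc i (i + k - 1) = Finset.Ico i (i + k) := by
    ext t; simp only [Finset.mem_Icc, Finset.mem_Ico]; omega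
  show n = ∑ t ∈ Finset.Icc i (i + k - 1), Nat.nth Nat.Prime t
  rw [e, Finset.sum_Ico_eq_sum_range, Nat.add_sub_cancel_left, h2]
  rfl

end Pool.Agent.Results.MP_9a1701_nt.RepresentableCount
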