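import Pool.Agent.Work.MP_9a1701_nt.V.V7

open Filter MeasureTheory ProbabilityTheory Topology
open Pool.Agent.Work.MP_9a1701_nt.P

namespace Pool.Agent.Results.MP_9a1701_nt.ThinnedPrimes

theorem result (ε : ℝ) (hε : 0 < ε) (hε1 : ε < 1) : ∃ κ : ℝ, 0 < κ ∧
    ∀ {Ω : Type*} [MeasurableSpace Ω] (μ : Measure Ω) [IsProbabilityMeasure μ]
      (E : ℕ → Set Ω), (∀ n, MeasurableSet (E n)) → iIndepSet E μ → ∀ α : ℝ,
      Tendsto (fun i : ℕ => μ.real (E (Nat.nth Nat.Prime i))) atTop (nhds α) →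
      (∀ᶠ p : ℕ in atTop, p.Prime → (p : ℝ) ^ (-κ) ≤ μ.real (E p) * (1 - μ.real (E p))) →
      ∀ᵐ ω ∂μ, ∀ k : ℕ, ∀ᶠ x : ℕ in atTop,
        (((Finset.Icc 1 x).filter fun n => rep {t | t.Prime ∧ ω ∈ E t} n = k).card : ℝ) / x ∈
          Set.Icc
            ((1 - ε) ^ (k + 1) *
              (Real.exp (-(α * Real.log 2)) * (α * Real.log 2) ^ k / k.factorial))
            (Real.exp (-(α * Real.log 2)) * (α * Real.log 2) ^ k / k.factorial + ε) :=
  thmV hε hε1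

end Pool.Agent.Results.MP_9a1701_nt.ThinnedPrimes
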